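import Pool.Agent.N343.AS.Stm

/-! Project AS (helper343), leaf CON (helper793): the series converges, not absolutely. -/

set_option autoImplicit false

open Filter Topology Finset

namespace Pool.Agent.N793.AS.Conv

open Pool.Agent.N343.AS

theorem st_succ (n : ℕ → ℕ) (A : ℕ → ℕ) (N : ℕ) : st n A (N + 1) = st n A N + (n N + 2 * MM A N) := by
  unfold st
  rw [Finset.sum_range_succ]

theorem A_le (A : ℕ → ℕ) (N : ℕ) : A N ≤ MM A N := by
  cases N with
  | zero => show A 0 ≤ A 0 + 1; omega
  | succ N => exact (Nat.le_add_right _ _).trans (Nat.le_add_right _ _)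

theorem alt (r : ℕ) : ∑ k ∈ range r, (-1 : ℝ) ^ k = if r % 2 = 0 then 0 else 1 := by
  induction r with
  | zero => simp
  | succ r ih =>
    rw [Finset.sum_range_succ, ih]
    rcases Nat.even_or_odd r with h | h
    · rw [h.neg_one_pow]
      have h1 : r % 2 = 0 := Nat.even_iff.1 h
      have h2 : (r + 1) % 2 = 1 := by omega
      rw [if_pos h1, if_neg (by omega)]
      norm_num
    · rw [h.neg_one_pow]
      have h1 : r % 2 = 1 := Nat.odd_iff.1 h
      rw [if_neg (by omega), if_pos (by omega)]
      norm_num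

section

variable {n : ℕ → ℕ} {c : ℕ → ℕ → ℝ} {X : ℕ → ℝ} {A : ℕ → ℕ} {x : ℕ → ℝ × ℝ}

theorem part1 (hx : isSer n c X A x) (N r : ℕ) (hr : r ≤ n N) :
    ∑ k ∈ range r, x (st n A N + k) = (∑ k ∈ range r, c N k, 0) := by
  have h1 : ∑ k ∈ range r, x (st n A N + k) = ∑ k ∈ range r, ((c N k, 0) : ℝ × ℝ) := by
    refine Finset.sum_congr rfl fun k hk => (hx N).1 k ?_
    have := Finset.mem_range.1 hk
    omega
  rw [h1]
  ext
  · simp [Prod.fst_sum]
  · simp [Prod.snd_sum]

theorem part2 (hx : isSer n c X A x) (N r : ℕ) (hr : r ≤ 2 * MM A N) :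
    ∑ k ∈ range r, x (st n A N + n N + k) =
      ((if r % 2 = 0 then 0 else 1) * X N, (if r % 2 = 0 then 0 else 1) * (1 / 2) ^ N) := by
  have h1 : ∑ k ∈ range r, x (st n A N + n N + k) =
      ∑ k ∈ range r, (((-1) ^ k * X N, (-1) ^ k * (1 / 2) ^ N) : ℝ × ℝ) := by
    refine Finset.sum_congr rfl fun k hk => (hx N).2 k ?_
    have := Finset.mem_range.1 hk
    omega
  rw [h1]
  ext
  · rw [Prod.fst_sum]
    simp only
    rw [← Finset.sum_mul, alt]
  · rw [Prod.snd_sum]
    simp only
    rw [← Finset.sum_mul, alt]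

theorem at_st (hx : isSer n c X A x) (N : ℕ) :
    ∑ m ∈ range (st n A N), x m = (∑ M ∈ range N, ∑ k ∈ range (n M), c M k, 0) := by
  induction N with
  | zero => simp [st]; rfl
  | succ N ih =>
    rw [st_succ, ← add_assoc, Finset.sum_range_add, Finset.sum_range_add, ih, part1 hx N _ le_rfl,
      part2 hx N _ le_rfl, Finset.sum_range_succ]
    have : (2 * MM A N) % 2 = 0 := by omega
    rw [if_pos this]
    simp

/-- the distance from the partial sum at the beginning of the level -/
theorem within (h : Hyp n c X A) (hx : isSer n c X A x) (N r : ℕ) (hr : r ≤ n N + 2 * MM A N) :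
    ‖∑ k ∈ range r, x (st n A N + k)‖ ≤ ∑ k ∈ range (n N), c N k + (1 / 2) ^ N := by
  have hc0 : 0 ≤ ∑ k ∈ range (n N), c N k :=
    Finset.sum_nonneg fun k hk => (h.cpos N k (Finset.mem_range.1 hk)).le
  have hp : (0 : ℝ) < (1 / 2) ^ N := by positivity
  rcases le_total r (n N) with h1 | h1
  · rw [part1 hx N r h1]
    have h2 : 0 ≤ ∑ k ∈ range r, c N k :=
      Finset.sum_nonneg fun k hk => (h.cpos N k (lt_of_lt_of_le (Finset.mem_range.1 hk) h1)).le
    have h3 : ∑ k ∈ range r, c N k ≤ ∑ k ∈ range (n N), c N k :=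
      Finset.sum_le_sum_of_subset_of_nonneg (Finset.range_mono h1)
        (fun k hk _ => (h.cpos N k (Finset.mem_range.1 hk)).le)
    rw [Prod.norm_mk, Real.norm_of_nonneg h2, norm_zero]
    refine max_le (by linarith) (by linarith)
  · obtain ⟨r', rfl⟩ := Nat.exists_eq_add_of_le h1
    rw [Finset.sum_range_add, part1 hx N _ le_rfl]
    have h4 : ∑ k ∈ range r', x (st n A N + (n N + k)) = ∑ k ∈ range r', x (st n A N + n N + k) :=
      Finset.sum_congr rfl fun k _ => by rw [add_assoc]
    rw [h4, part2 hx N r' (by omega), Prod.mk_add_mk, Prod.norm_mk, zero_add]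
    have hX := h.XY N
    have hX0 := h.Xpos N
    refine max_le ?_ ?_
    · rw [Real.norm_of_nonneg]
      · split_ifs <;> linarith
      · split_ifs <;> linarith
    · rw [Real.norm_of_nonneg]
      · split_ifs <;> linarith
      · split_ifs <;> linarith

theorem st_mono (h : Hyp n c X A) : StrictMono (st n A) := by
  refine strictMono_nat_of_lt_succ fun N => ?_
  rw [st_succ]
  have := h.npos N
  omega

theorem exists_level (h : Hyp n c X A) (m : ℕ) : ∃ N, st n A N ≤ m ∧ m < st n A (N + 1) := by
  have hex : ∃ N, m < st n A (N + 1) := ⟨m, by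
    have := (st_mono h).id_le (m + 1)
    simp only [id] at this
    omega⟩
  classical
  refine ⟨Nat.find hex, ?_, Nat.find_spec hex⟩
  rcases Nat.eq_zero_or_pos (Nat.find hex) with h0 | h0
  · rw [h0]; simp [st]
  · have h1 := Nat.find_min hex (m := Nat.find hex - 1) (by omega)
    have h2 : Nat.find hex - 1 + 1 = Nat.find hex := by omega
    rw [h2] at h1
    omega

end

theorem main : S_CON := by
  intro n c X A h x hx
  have hst := st_mono h
  constructor
  · choose lev hlev1 hlev2 using exists_level h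
    set w : ℕ → ℝ := fun N => ∑ k ∈ range (n N), c N k with hw
    have hsum := h.csum
    refine ⟨(∑' N, w N, 0), ?_⟩
    have hlev : Tendsto lev atTop atTop := by
      rw [tendsto_atTop]
      intro N0
      filter_upwards [eventually_ge_atTop (st n A N0)] with m hm
      by_contra hc
      push Not at hc
      have h1 : st n A (lev m + 1) ≤ st n A N0 := hst.monotone (by omega)
      have h2 := hlev2 m
      omega
    rw [tendsto_iff_norm_sub_tendsto_zero]
    have hg : Tendsto (fun N => |∑ M ∈ range N, w M - ∑' N, w N| + (w N + (1 / 2) ^ N)) atTop (𝓝 0) := by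
      have h1 : Tendsto (fun N => |∑ M ∈ range N, w M - ∑' N, w N|) atTop (𝓝 0) := by
        have h2 := hsum.hasSum.tendsto_sum_nat
        have h3 : Tendsto (fun N => ∑ M ∈ range N, w M - ∑' N, w N) atTop (𝓝 0) := by
          have := h2.sub_const (∑' N, w N)
          rwa [sub_self] at this
        have := h3.abs
        rwa [abs_zero] at this
      have h4 : Tendsto w atTop (𝓝 0) := hsum.tendsto_atTop_zero
      have h5 : Tendsto (fun N : ℕ => ((1 / 2 : ℝ)) ^ N) atTop (𝓝 0) :=
        tendsto_pow_atTop_nhds_zero_of_lt_one (by norm_num) (by norm_num)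
      have := h1.add (h4.add h5)
      simpa using this
    refine squeeze_zero (fun _ => norm_nonneg _) (fun m => ?_) (hg.comp hlev)
    have e1 : m = st n A (lev m) + (m - st n A (lev m)) := by have := hlev1 m; omega
    have hr : m - st n A (lev m) ≤ n (lev m) + 2 * MM A (lev m) := by
      have h1 := hlev2 m
      rw [st_succ] at h1
      omega
    have e2 : ∑ k ∈ range m, x k - (∑' N, w N, 0) =
        ((∑ M ∈ range (lev m), w M - ∑' N, w N, 0) : ℝ × ℝ) +
          ∑ k ∈ range (m - st n A (lev m)), x (st n A (lev m) + k) := by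
      conv_lhs => rw [e1]
      rw [Finset.sum_range_add, at_st hx]
      ext
      · simp only [Prod.fst_sub, Prod.fst_add, hw]
        ring
      · simp only [Prod.snd_sub, Prod.snd_add]
        ring
    rw [e2]
    refine (norm_add_le _ _).trans (add_le_add ?_ (within h hx _ _ hr))
    rw [Prod.norm_mk, norm_zero, Real.norm_eq_abs]
    exact max_le le_rfl (abs_nonneg _)
  · intro hs
    have h1 := hs.hasSum.tendsto_sum_nat
    have h2 : Tendsto (fun N => ∑ m ∈ range (st n A N), ‖x m‖) atTop (𝓝 (∑' m, ‖x m‖)) :=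
      h1.comp hst.tendsto_atTop
    have h3 : Tendsto (fun N => ∑ m ∈ range (st n A (N + 1)), ‖x m‖) atTop (𝓝 (∑' m, ‖x m‖)) :=
      h2.comp (tendsto_add_atTop_nat 1)
    have h4 := h3.sub h2
    rw [sub_self] at h4
    have h5 : ∀ N, 1 ≤ ∑ m ∈ range (st n A (N + 1)), ‖x m‖ - ∑ m ∈ range (st n A N), ‖x m‖ := by
      intro N
      rw [st_succ, ← add_assoc, Finset.sum_range_add, Finset.sum_range_add]
      have h6 : 0 ≤ ∑ k ∈ range (n N), ‖x (st n A N + k)‖ := Finset.sum_nonneg fun _ _ => norm_nonneg _
      have h7 : ∑ _k ∈ range (2 * MM A N), X N ≤ ∑ k ∈ range (2 * MM A N), ‖x (st n A N + n N + k)‖ := by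
        refine Finset.sum_le_sum fun k hk => ?_
        rw [(hx N).2 k (Finset.mem_range.1 hk), Prod.norm_mk]
        refine le_max_of_le_left ?_
        rw [norm_mul, norm_pow, norm_neg, norm_one, one_pow, one_mul]
        exact le_abs_self _
      rw [Finset.sum_const, Finset.card_range, nsmul_eq_mul] at h7
      have h8 := h.AX N
      have h9 : (A N : ℝ) ≤ ((2 * MM A N : ℕ) : ℝ) := by
        have := A_le A N
        exact_mod_cast (by omega : A N ≤ 2 * MM A N)
      have h10 := mul_le_mul_of_nonneg_right h9 (h.Xpos N).le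
      linarith
    have h6 := ge_of_tendsto' h4 h5
    linarith

end Pool.Agent.N793.AS.Conv
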